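import Pool.Agent.Q123.OE.Frq
import Pool.Agent.Q260.OE.Stm4

set_option autoImplicit false

/-!
# Project OE, job FRW: the window law for the error together with the prime error
-/

namespace Pool.Agent.Q96.OE

open Complex MeasureTheory Filter Topology Set
open Pool.Agent.Q286.BD (cl mz difR JR)
open Pool.Agent.Q260.GM (ph)
open Pool.Agent.Q260.OE
open Pool.Agent.Q123.OE

/-- the common profile at a zero of multiplicity `m` -/
noncomputable def HH (a b : ℝ) (m : ℕ) (v : ℝ) : ℂ := (a : ℂ) * FF m v + (b : ℂ) * m * FF 1 v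

lemma pm_one (x : ℝ) : (pm 1).eval x = 1 := by
  simp [pm, Polynomial.shiftedLegendre]

lemma ec (v : ℝ) : Continuous fun u : ℝ => cexp (-(u * v * I)) := by fun_prop

lemma FF_one (v : ℝ) : FF 1 v = ∫ u in (0 : ℝ)..1, cexp (-(u * v * I)) := by
  unfold FF
  refine intervalIntegral.integral_congr fun u _ => ?_
  show (((pm 1).eval u : ℝ) : ℂ) * cexp (-(u * v * I)) = cexp (-(u * v * I))
  rw [pm_one]
  simp

lemma HH_int (a b : ℝ) (m : ℕ) (v : ℝ) :
    HH a b m v = ∫ u in (0 : ℝ)..1, ((a * (pm m).eval u + b * m : ℝ) : ℂ) * cexp (-(u * v * I)) := by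
  unfold HH
  rw [FF_one]
  unfold FF
  rw [← intervalIntegral.integral_const_mul, ← intervalIntegral.integral_const_mul, ← intervalIntegral.integral_add]
  · refine intervalIntegral.integral_congr fun u _ => ?_
    show (a : ℂ) * ((((pm m).eval u : ℝ) : ℂ) * cexp (-(u * v * I))) + (b : ℂ) * m * cexp (-(u * v * I)) =
      ((a * (pm m).eval u + b * m : ℝ) : ℂ) * cexp (-(u * v * I))
    push_cast
    ring
  · refine Continuous.intervalIntegrable ?_ _ _
    refine continuous_const.mul (Continuous.mul ?_ (ec v))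
    exact Complex.continuous_ofReal.comp (pm m).continuous
  · exact Continuous.intervalIntegrable (continuous_const.mul (ec v)) _ _

/-- the mass of the profile -/
noncomputable def cg (a b : ℝ) (m : ℕ) : ℝ := ∫ x in (0 : ℝ)..1, (a * (pm m).eval x + b * (m : ℝ)) ^ 2

lemma HH_prop (h : S_FFB) (hp : S_PLG) (a b : ℝ) (m : ℕ) :
    Continuous (HH a b m) ∧ (∃ C : ℝ, 0 < C ∧ ∀ v : ℝ, ‖HH a b m v‖ ≤ C / (1 + |v|)) ∧
    Integrable (fun v : ℝ => ‖HH a b m v‖ ^ 2) ∧ 1 / (2 * Real.pi) * ∫ v : ℝ, ‖HH a b m v‖ ^ 2 = cg a b m := by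
  obtain ⟨c1, ⟨C, hC, hb⟩, -, -⟩ := h m
  obtain ⟨c2, ⟨C', hC', hb'⟩, -, -⟩ := h 1
  refine ⟨?_, ?_, ?_⟩
  · unfold HH
    exact (continuous_const.mul c1).add (continuous_const.mul c2)
  · refine ⟨|a| * C + |b| * m * C' + 1, by positivity, fun v => ?_⟩
    have hv : 0 < 1 + |v| := by positivity
    have e1 := hb v
    have e2 := hb' v
    have e3 : ‖HH a b m v‖ ≤ |a| * ‖FF m v‖ + |b| * m * ‖FF 1 v‖ := by
      unfold HH
      refine (norm_add_le _ _).trans (le_of_eq ?_)
      simp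
    have e4 : |a| * ‖FF m v‖ ≤ |a| * (C / (1 + |v|)) := mul_le_mul_of_nonneg_left e1 (abs_nonneg _)
    have e5 : |b| * m * ‖FF 1 v‖ ≤ |b| * m * (C' / (1 + |v|)) := mul_le_mul_of_nonneg_left e2 (by positivity)
    have e6 : (|a| * C + |b| * m * C' + 1) / (1 + |v|) = |a| * (C / (1 + |v|)) + |b| * m * (C' / (1 + |v|)) + 1 / (1 + |v|) := by
      field_simp
    have e7 : 0 ≤ 1 / (1 + |v|) := by positivity
    rw [e6]; linarith
  · set k : ℝ → ℂ := fun u => ((a * (pm m).eval u + b * m : ℝ) : ℂ) with hk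
    have hkc : Continuous k := by
      refine Complex.continuous_ofReal.comp ?_
      exact (continuous_const.mul (pm m).continuous).add continuous_const
    have hki : IntegrableOn k (Ioc 0 1) := (hkc.integrableOn_Icc (a := 0) (b := 1)).mono_set Ioc_subset_Icc_self
    have hki2 : IntegrableOn (fun u => ‖k u‖ ^ 2) (Ioc 0 1) :=
      ((hkc.norm.pow 2).integrableOn_Icc (a := 0) (b := 1)).mono_set Ioc_subset_Icc_self
    have hs : Ioi (0 : ℝ) ∩ Ioc 0 1 = Ioc 0 1 := inter_eq_right.mpr fun x hx => hx.1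
    have e1 : (fun w : ℝ => ‖indicator (Ioc 0 1) k w‖ ^ 2) = indicator (Ioc 0 1) (fun w : ℝ => ‖k w‖ ^ 2) := by
      funext w
      by_cases hw : w ∈ Ioc (0 : ℝ) 1
      · rw [indicator_of_mem hw, indicator_of_mem hw]
      · rw [indicator_of_notMem hw, indicator_of_notMem hw]; simp
    obtain ⟨p1, p2⟩ := hp (indicator (Ioc 0 1) k) ((integrable_indicator_iff measurableSet_Ioc).mpr hki).integrableOn
      (by rw [e1]; exact ((integrable_indicator_iff measurableSet_Ioc).mpr hki2).integrableOn)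
    have et : ∀ t : ℝ, ∫ w in Ioi (0 : ℝ), indicator (Ioc 0 1) k w * cexp (-(t * w * I)) = HH a b m t := by
      intro t
      have e0 : ∀ w : ℝ, indicator (Ioc 0 1) k w * cexp (-(t * w * I)) =
          indicator (Ioc 0 1) (fun w : ℝ => k w * cexp (-(w * t * I))) w := by
        intro w
        by_cases hw : w ∈ Ioc (0 : ℝ) 1
        · rw [indicator_of_mem hw, indicator_of_mem hw, mul_comm (t : ℂ)]
        · rw [indicator_of_notMem hw, indicator_of_notMem hw, zero_mul]
      simp only [e0]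
      rw [setIntegral_indicator measurableSet_Ioc, hs, HH_int, intervalIntegral.integral_of_le zero_le_one]
    simp only [et] at p1 p2
    refine ⟨p1, ?_⟩
    rw [← p2, e1, setIntegral_indicator measurableSet_Ioc, hs]
    unfold cg
    rw [intervalIntegral.integral_of_le zero_le_one]
    refine setIntegral_congr_fun measurableSet_Ioc fun w _ => ?_
    show ‖((a * (pm m).eval w + b * m : ℝ) : ℂ)‖ ^ 2 = _
    rw [Complex.norm_real, Real.norm_eq_abs, sq_abs]

/-- the contribution of the zero `g` -/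
noncomputable def bg (a b g L t : ℝ) : ℂ := HH a b (mz (cl g)) ((t - g) * L) / cl g

/-- the limit belonging to the zero `g` -/
noncomputable def zg (a b α β g : ℝ) : ℝ := if α < g ∧ g < β then xg a b 0 1 g else 0

lemma zg_nonneg (a b α β g : ℝ) : 0 ≤ zg a b α β g := by
  unfold zg
  split_ifs
  · exact xg_nonneg a b zero_le_one g
  · exact le_rfl

lemma zg_le (a b α β g : ℝ) : zg a b α β g ≤ xg a b 0 1 g := by
  unfold zg
  split_ifs
  · exact le_rfl
  · exact xg_nonneg a b zero_le_one g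

lemma bg_cont (h : S_FFB) (hp : S_PLG) (a b g L : ℝ) : Continuous (bg a b g L) := by
  unfold bg
  exact ((HH_prop h hp a b _).1.comp (by fun_prop)).div_const _

lemma diagW (h : S_FFB) (hp : S_PLG) (a b : ℝ) {α β : ℝ} (hab : α < β) {g : ℝ} (h1 : g ≠ α) (h2 : g ≠ β) :
    Tendsto (fun L : ℝ => ∫ t in α..β, L / (2 * Real.pi) * ‖bg a b g L t‖ ^ 2) atTop (𝓝 (zg a b α β g)) := by
  obtain ⟨hc, -, hi, hm⟩ := HH_prop h hp a b (mz (cl g))
  set N : ℝ → ℝ := fun v => ‖HH a b (mz (cl g)) v‖ ^ 2 with hN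
  have hg0 : (0 : ℝ) < 1 / 4 + g ^ 2 := by positivity
  -- the limit of the integrals of `N`
  have key : Tendsto (fun L : ℝ => ∫ v in (L * α - g * L)..(L * β - g * L), N v) atTop
      (𝓝 (if α < g ∧ g < β then ∫ v, N v else 0)) := by
    have lp : ∀ x : ℝ, g < x → Tendsto (fun L : ℝ => L * x - g * L) atTop atTop := by
      intro x hx
      have : Tendsto (fun L : ℝ => L * (x - g)) atTop atTop := tendsto_id.atTop_mul_const (by linarith)
      exact this.congr fun L => by ring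
    have lm : ∀ x : ℝ, x < g → Tendsto (fun L : ℝ => L * x - g * L) atTop atBot := by
      intro x hx
      have : Tendsto (fun L : ℝ => L * (x - g)) atTop atBot :=
        (tendsto_id.atTop_mul_const_of_neg (by linarith))
      exact this.congr fun L => by ring
    rcases lt_or_gt_of_ne h1 with hga | hga
    · rw [if_neg (by intro hh; linarith [hh.1])]
      have a1 := intervalIntegral_tendsto_integral_Ioi 0 hi.integrableOn (lp α hga)
      have a2 := intervalIntegral_tendsto_integral_Ioi 0 hi.integrableOn (lp β (by linarith))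
      have a3 := a2.sub a1
      rw [sub_self] at a3
      refine a3.congr fun L => ?_
      exact intervalIntegral.integral_interval_sub_left hi.intervalIntegrable hi.intervalIntegrable
    · rcases lt_or_gt_of_ne h2 with hgb | hgb
      · rw [if_pos ⟨hga, hgb⟩]
        exact intervalIntegral_tendsto_integral hi (lm α hga) (lp β hgb)
      · rw [if_neg (by intro hh; linarith [hh.2])]
        have a1 := intervalIntegral_tendsto_integral_Iic 0 hi.integrableOn (lm α (by linarith))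
        have a2 := intervalIntegral_tendsto_integral_Iic 0 hi.integrableOn (lm β hgb)
        have a3 := a1.sub a2
        rw [sub_self] at a3
        refine a3.congr fun L => ?_
        have c1 := intervalIntegral.integral_add_adjacent_intervals
          (hi.intervalIntegrable (a := L * α - g * L) (b := L * β - g * L)) (hi.intervalIntegrable (b := 0))
        linarith
  have key2 := key.const_mul (1 / (2 * Real.pi) / (1 / 4 + g ^ 2))
  have e : 1 / (2 * Real.pi) / (1 / 4 + g ^ 2) * (if α < g ∧ g < β then ∫ v, N v else 0) = zg a b α β g := by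
    unfold zg xg
    split_ifs
    · have hm' : 1 / (2 * Real.pi) * ∫ v : ℝ, N v =
        ∫ x in (0 : ℝ)..1, (a * (pm (mz (cl g))).eval x + b * (mz (cl g) : ℝ)) ^ 2 := hm
      rw [← hm']; field_simp
    · simp
  rw [e] at key2
  refine key2.congr' ?_
  filter_upwards [eventually_gt_atTop 0] with L hL
  have e2 : ∀ t, L / (2 * Real.pi) * ‖bg a b g L t‖ ^ 2 = L * (1 / (2 * Real.pi) / (1 / 4 + g ^ 2)) * N (L * t - g * L) := by
    intro t
    unfold bg
    rw [norm_div, div_pow, Pool.Agent.Q286.BD.norm_cl_sq]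
    have : (t - g) * L = L * t - g * L := by ring
    rw [this, hN]
    ring
  simp only [e2]
  rw [intervalIntegral.integral_const_mul, intervalIntegral.integral_comp_mul_sub _ hL.ne', smul_eq_mul]
  field_simp

lemma bg_bound (h : S_FFB) (hp : S_PLG) (a b g : ℝ) : ∃ K : ℝ, 0 < K ∧ ∀ L t : ℝ, 0 < L → ‖bg a b g L t‖ ≤ K / (1 + |t - g| * L) := by
  obtain ⟨-, ⟨C, hC, hb⟩, -⟩ := HH_prop h hp a b (mz (cl g))
  have hcl : 0 < ‖cl g‖ := norm_pos_iff.mpr (cl_ne g)
  refine ⟨C / ‖cl g‖, by positivity, fun L t hL => ?_⟩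
  unfold bg
  rw [norm_div]
  have := hb ((t - g) * L)
  rw [abs_mul, abs_of_pos hL] at this
  have e : C / ‖cl g‖ / (1 + |t - g| * L) = C / (1 + |t - g| * L) / ‖cl g‖ := by
    rw [div_div, div_div, mul_comm]
  rw [e]
  exact div_le_div_of_nonneg_right this hcl.le

lemma crossW (h : S_FFB) (hp : S_PLG) (a b α β : ℝ) {g g' : ℝ} (hne : g ≠ g') :
    Tendsto (fun L : ℝ => ∫ t in α..β, L / (2 * Real.pi) * (bg a b g L t * (starRingEnd ℂ) (bg a b g' L t)).re) atTop (𝓝 0) := by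
  obtain ⟨K, hK, hb⟩ := bg_bound h hp a b g
  obtain ⟨K', hK', hb'⟩ := bg_bound h hp a b g'
  set d : ℝ := |g - g'| with hd
  have hdp : 0 < d := abs_pos.mpr (sub_ne_zero.mpr hne)
  have hpt : ∀ L t : ℝ, 0 < L → ‖L / (2 * Real.pi) * (bg a b g L t * (starRingEnd ℂ) (bg a b g' L t)).re‖ ≤
      K * K' * (L / ((1 + |t - g| * L) * (1 + |t - g'| * L))) := by
    intro L t hL
    rw [norm_mul, Real.norm_eq_abs, Real.norm_eq_abs, abs_of_nonneg (by positivity)]
    have n1 : |(bg a b g L t * (starRingEnd ℂ) (bg a b g' L t)).re| ≤ ‖bg a b g L t‖ * ‖bg a b g' L t‖ := by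
      refine (Complex.abs_re_le_norm _).trans ?_
      rw [norm_mul, RCLike.norm_conj]
    have n2 : ‖bg a b g L t‖ * ‖bg a b g' L t‖ ≤ K / (1 + |t - g| * L) * (K' / (1 + |t - g'| * L)) :=
      mul_le_mul (hb L t hL) (hb' L t hL) (norm_nonneg _) (by positivity)
    have n3 : L / (2 * Real.pi) ≤ L := by
      refine div_le_self hL.le ?_
      have := Real.pi_gt_three
      linarith
    calc _ ≤ L * (K / (1 + |t - g| * L) * (K' / (1 + |t - g'| * L))) :=
          mul_le_mul n3 (n1.trans n2) (abs_nonneg _) hL.le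
      _ = _ := by
        have p1 : 0 < 1 + |t - g| * L := by positivity
        have p2 : 0 < 1 + |t - g'| * L := by positivity
        field_simp
  have h0 : (0 : ℝ) = ∫ t in α..β, (0 : ℝ) := by simp
  rw [h0]
  refine intervalIntegral.tendsto_integral_filter_of_dominated_convergence (fun _ => K * K' * (1 / d)) ?_ ?_ ?_ ?_
  · refine Eventually.of_forall fun L => ?_
    refine Continuous.aestronglyMeasurable ?_
    refine continuous_const.mul (Complex.continuous_re.comp ?_)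
    exact (bg_cont h hp a b g L).mul (Complex.continuous_conj.comp (bg_cont h hp a b g' L))
  · filter_upwards [eventually_gt_atTop 0] with L hL
    refine ae_of_all _ fun t _ => (hpt L t hL).trans ?_
    refine mul_le_mul_of_nonneg_left ?_ (by positivity)
    have p1 : 0 ≤ |t - g| * L := by positivity
    have p2 : 0 ≤ |t - g'| * L := by positivity
    have p3 : d ≤ |t - g| + |t - g'| := by
      have := abs_sub_le g t g'
      rw [abs_sub_comm g t] at this
      exact this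
    rw [div_le_div_iff₀ (by positivity) hdp]
    nlinarith [mul_nonneg p1 p2]
  · exact intervalIntegrable_const
  · have hfin : ({g, g'} : Set ℝ).Finite := Set.toFinite _
    have hae : ∀ᵐ t : ℝ, t ∉ ({g, g'} : Set ℝ) := hfin.measure_zero volume |> measure_eq_zero_iff_ae_notMem.mp
    filter_upwards [hae] with t ht _
    have t1 : 0 < |t - g| := abs_pos.mpr (sub_ne_zero.mpr fun e => ht (by simp [e]))
    have t2 : 0 < |t - g'| := abs_pos.mpr (sub_ne_zero.mpr fun e => ht (by simp [e]))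
    have hl : Tendsto (fun L : ℝ => K * K' / (|t - g| * |t - g'|) * L⁻¹) atTop (𝓝 0) := by
      have := tendsto_inv_atTop_zero (𝕜 := ℝ) |>.const_mul (K * K' / (|t - g| * |t - g'|))
      rwa [mul_zero] at this
    refine squeeze_zero_norm' ?_ hl
    filter_upwards [eventually_gt_atTop 0] with L hL
    refine (hpt L t hL).trans ?_
    have : L / ((1 + |t - g| * L) * (1 + |t - g'| * L)) ≤ L / ((|t - g| * L) * (|t - g'| * L)) := by
      gcongr <;> linarith
    calc _ ≤ K * K' * (L / ((|t - g| * L) * (|t - g'| * L))) := by gcongr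
      _ = _ := by field_simp

/-- the transform of the model -/
noncomputable def Mw (S : Finset ℝ) (a b L t : ℝ) : ℂ := ∑ g ∈ S, bg a b g L t

lemma Mw_cont (h : S_FFB) (hp : S_PLG) (S : Finset ℝ) (a b L : ℝ) : Continuous (Mw S a b L) :=
  continuous_finsetSum _ fun g _ => bg_cont h hp a b g L

lemma Mw_sq (S : Finset ℝ) (a b L t : ℝ) :
    ‖Mw S a b L t‖ ^ 2 = ∑ g ∈ S, ∑ g' ∈ S, (bg a b g L t * (starRingEnd ℂ) (bg a b g' L t)).re := by
  have e : ((‖Mw S a b L t‖ ^ 2 : ℝ) : ℂ) = Mw S a b L t * (starRingEnd ℂ) (Mw S a b L t) := by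
    rw [Complex.mul_conj, Complex.normSq_eq_norm_sq]
  have e2 := congrArg Complex.re e
  rw [Complex.ofReal_re] at e2
  rw [e2]
  unfold Mw
  rw [map_sum, Finset.sum_mul_sum, Complex.re_sum]
  refine Finset.sum_congr rfl fun g _ => ?_
  rw [Complex.re_sum]

lemma modelW (h : S_FFB) (hp : S_PLG) (a b : ℝ) {α β : ℝ} (hab : α < β) (S : Finset ℝ) (h1 : α ∉ S) (h2 : β ∉ S) :
    Tendsto (fun L : ℝ => L * (1 / (2 * Real.pi) * ∫ t in α..β, ‖Mw S a b L t‖ ^ 2)) atTop
      (𝓝 (∑ g ∈ S, zg a b α β g)) := by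
  have hs : Tendsto (fun L : ℝ => ∑ g ∈ S, ∑ g' ∈ S,
      ∫ t in α..β, L / (2 * Real.pi) * (bg a b g L t * (starRingEnd ℂ) (bg a b g' L t)).re) atTop
      (𝓝 (∑ g ∈ S, ∑ g' ∈ S, if g = g' then zg a b α β g else 0)) := by
    refine tendsto_finsetSum _ fun g hg => tendsto_finsetSum _ fun g' hg' => ?_
    by_cases hgg : g = g'
    · subst hgg
      rw [if_pos rfl]
      refine (diagW h hp a b hab (g := g) (fun e => h1 (e ▸ hg)) (fun e => h2 (e ▸ hg))).congr fun L => ?_
      refine intervalIntegral.integral_congr fun t _ => ?_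
      show L / (2 * Real.pi) * ‖bg a b g L t‖ ^ 2 = _
      rw [Complex.mul_conj, Complex.ofReal_re, Complex.normSq_eq_norm_sq]
    · rw [if_neg hgg]
      exact crossW h hp a b α β hgg
  have e : ∑ g ∈ S, ∑ g' ∈ S, (if g = g' then zg a b α β g else 0) = ∑ g ∈ S, zg a b α β g := by
    refine Finset.sum_congr rfl fun g hg => ?_
    rw [Finset.sum_ite_eq, if_pos hg]
  rw [e] at hs
  refine hs.congr fun L => ?_
  have hint : ∀ g g' : ℝ, IntervalIntegrable
      (fun t => L / (2 * Real.pi) * (bg a b g L t * (starRingEnd ℂ) (bg a b g' L t)).re) volume α β := by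
    intro g g'
    refine Continuous.intervalIntegrable ?_ _ _
    refine continuous_const.mul (Complex.continuous_re.comp ?_)
    exact (bg_cont h hp a b g L).mul (Complex.continuous_conj.comp (bg_cont h hp a b g' L))
  have e3 : ∀ g ∈ S, ∑ g' ∈ S, ∫ t in α..β, L / (2 * Real.pi) * (bg a b g L t * (starRingEnd ℂ) (bg a b g' L t)).re =
      ∫ t in α..β, ∑ g' ∈ S, L / (2 * Real.pi) * (bg a b g L t * (starRingEnd ℂ) (bg a b g' L t)).re := fun g _ =>
    (intervalIntegral.integral_finsetSum fun g' _ => hint g g').symm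
  rw [Finset.sum_congr rfl e3, ← intervalIntegral.integral_finsetSum]
  · rw [← mul_assoc, ← intervalIntegral.integral_const_mul]
    refine intervalIntegral.integral_congr fun t _ => ?_
    show ∑ g ∈ S, ∑ g' ∈ S, L / (2 * Real.pi) * (bg a b g L t * (starRingEnd ℂ) (bg a b g' L t)).re = L * (1 / (2 * Real.pi)) * ‖Mw S a b L t‖ ^ 2
    rw [Mw_sq]
    simp only [← Finset.mul_sum]
    ring
  · intro g _
    have := IntervalIntegrable.sum S (f := fun g' t => L / (2 * Real.pi) * (bg a b g L t * (starRingEnd ℂ) (bg a b g' L t)).re)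
      fun g' _ => hint g g'
    have e4 : (∑ g' ∈ S, fun t => L / (2 * Real.pi) * (bg a b g L t * (starRingEnd ℂ) (bg a b g' L t)).re) =
        fun t => ∑ g' ∈ S, L / (2 * Real.pi) * (bg a b g L t * (starRingEnd ℂ) (bg a b g' L t)).re := by
      funext t
      simp
    rw [e4] at this
    exact this

/-! ## the prime error -/

lemma PT_cont {L : ℝ} (hL : 0 ≤ L) : Continuous (PT L) := by
  unfold PT
  refine intervalIntegral.continuous_of_dominated_interval (bound := fun _ => Chebyshev.psi (Real.exp L) + Real.exp L) ?_ ?_ ?_ ?_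
  · intro t
    refine Measurable.aestronglyMeasurable ?_
    refine (Complex.measurable_ofReal.comp ph_meas).mul ?_
    fun_prop
  · intro t
    refine ae_of_all _ fun w hw => ?_
    rw [uIoc_of_le hL] at hw
    rw [norm_mul, Complex.norm_real, Real.norm_eq_abs]
    have h1 := ph_bound hw.2
    have h2 : ‖cexp (-(cl t * w))‖ ≤ 1 := by
      rw [Complex.norm_exp]
      refine Real.exp_le_one_iff.mpr ?_
      simp [cl]
      exact hw.1.le
    have h3 := norm_nonneg (cexp (-(cl t * w)))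
    have h4 := abs_nonneg (ph w)
    nlinarith
  · exact intervalIntegrable_const
  · refine ae_of_all _ fun w _ => ?_
    have := cl_cont
    fun_prop

/-- the transform of `ph + ZS S` on `[0, L]` -/
noncomputable def E3 (S : Finset ℝ) (L t : ℝ) : ℂ :=
  PT L t + L * ∑ g ∈ S, (mz (cl g) : ℂ) * FF 1 ((t - g) * L) / cl g

lemma one_zero (L t g : ℝ) : ∫ w in (0 : ℝ)..L, cexp (w * cl g) * cexp (-(cl t * w)) = L * FF 1 ((t - g) * L) := by
  rw [FF_one]
  have h := intervalIntegral.smul_integral_comp_mul_left (a := 0) (b := 1) (fun w : ℝ => cexp (w * cl g) * cexp (-(cl t * w))) L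
  rw [mul_zero, mul_one] at h
  rw [← h, Complex.real_smul]
  congr 1
  refine intervalIntegral.integral_congr fun u _ => ?_
  show cexp (((L * u : ℝ) : ℂ) * cl g) * cexp (-(cl t * ((L * u : ℝ) : ℂ))) = cexp (-(u * (((t - g) * L : ℝ) : ℂ) * I))
  rw [← Complex.exp_add]
  congr 1
  unfold cl
  push_cast
  ring

lemma ZS_tr (S : Finset ℝ) (L t : ℝ) : ∫ w in (0 : ℝ)..L, ZS S w * cexp (-(cl t * w)) =
    L * ∑ g ∈ S, (mz (cl g) : ℂ) * FF 1 ((t - g) * L) / cl g := by
  unfold ZS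
  have e : ∀ w : ℝ, (∑ g ∈ S, (mz (cl g) : ℂ) * cexp (w * cl g) / cl g) * cexp (-(cl t * w)) =
      ∑ g ∈ S, ((mz (cl g) : ℂ) / cl g) * (cexp (w * cl g) * cexp (-(cl t * w))) := by
    intro w
    rw [Finset.sum_mul]
    refine Finset.sum_congr rfl fun g _ => ?_
    ring
  simp only [e]
  rw [intervalIntegral.integral_finsetSum, Finset.mul_sum]
  · refine Finset.sum_congr rfl fun g _ => ?_
    rw [intervalIntegral.integral_const_mul, one_zero]
    ring
  · intro g _
    refine Continuous.intervalIntegrable ?_ _ _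
    fun_prop

lemma G_mlp (S : Finset ℝ) (L : ℝ) : MemLp (fun w => ((ph w : ℂ) + ZS S w) * eh w) 2 (volume.restrict (Ioc 0 L)) := by
  have := (ph_mlp (s := 0) (t := L) le_rfl).add (mlp_c ((ZS_cont S).mul eh_cont) 0 L)
  refine this.congr_norm ?_ ?_
  · exact (((Complex.measurable_ofReal.comp ph_meas).add (ZS_cont S).measurable).mul eh_meas).aestronglyMeasurable
  · refine ae_of_all _ fun w => ?_
    simp only [Pi.add_apply, Pi.mul_apply]
    congr 1
    ring

lemma plg3 (hp : S_PLG) (S : Finset ℝ) {L : ℝ} (hL : 0 < L) :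
    Integrable (fun t : ℝ => ‖E3 S L t‖ ^ 2) ∧
    ∫ w in (0 : ℝ)..L, ‖(ph w : ℂ) + ZS S w‖ ^ 2 * Real.exp (-w) = 1 / (2 * Real.pi) * ∫ t : ℝ, ‖E3 S L t‖ ^ 2 := by
  set k : ℝ → ℂ := fun w => ((ph w : ℂ) + ZS S w) * eh w with hk
  have hkm := G_mlp S L
  have hki : IntegrableOn k (Ioc 0 L) := hkm.integrable one_le_two
  have hki2 : IntegrableOn (fun u => ‖k u‖ ^ 2) (Ioc 0 L) := isq hkm
  have hs : Ioi (0 : ℝ) ∩ Ioc 0 L = Ioc 0 L := inter_eq_right.mpr fun x hx => hx.1
  have e1 : (fun w : ℝ => ‖indicator (Ioc 0 L) k w‖ ^ 2) = indicator (Ioc 0 L) (fun w : ℝ => ‖k w‖ ^ 2) := by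
    funext w
    by_cases hw : w ∈ Ioc (0 : ℝ) L
    · rw [indicator_of_mem hw, indicator_of_mem hw]
    · rw [indicator_of_notMem hw, indicator_of_notMem hw]; simp
  have et : ∀ t : ℝ, ∫ w in Ioi (0 : ℝ), indicator (Ioc 0 L) k w * cexp (-(t * w * I)) = E3 S L t := by
    intro t
    have e0 : ∀ w : ℝ, indicator (Ioc 0 L) k w * cexp (-(t * w * I)) =
        indicator (Ioc 0 L) (fun w : ℝ => (ph w : ℂ) * cexp (-(cl t * w)) + ZS S w * cexp (-(cl t * w))) w := by
      intro w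
      by_cases hw : w ∈ Ioc (0 : ℝ) L
      · rw [indicator_of_mem hw, indicator_of_mem hw, ← add_mul]
        show ((ph w : ℂ) + ZS S w) * eh w * cexp (-(t * w * I)) = _
        rw [mul_assoc]
        congr 1
        unfold eh cl
        rw [Complex.ofReal_exp, ← Complex.exp_add]
        congr 1
        push_cast
        ring
      · rw [indicator_of_notMem hw, indicator_of_notMem hw, zero_mul]
    simp only [e0]
    rw [setIntegral_indicator measurableSet_Ioc, hs, ← intervalIntegral.integral_of_le hL.le,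
      intervalIntegral.integral_add, ZS_tr]
    · rfl
    · rw [intervalIntegrable_iff_integrableOn_Ioc_of_le hL.le]
      have h1 : MemLp (fun w => (ph w : ℂ)) 2 (volume.restrict (Ioc 0 L)) :=
        mlp (Complex.measurable_ofReal.comp ph_meas) (B := Chebyshev.psi (Real.exp L) + Real.exp L)
          fun w hw => by
            show ‖((ph w : ℝ) : ℂ)‖ ≤ _
            rw [Complex.norm_real, Real.norm_eq_abs]
            exact ph_bound hw.2
      have h2 : IntegrableOn (fun w => (ph w : ℂ)) (Ioc 0 L) := h1.integrable one_le_two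
      refine h2.mul_bdd (c := 1) ?_ ?_
      · refine Continuous.aestronglyMeasurable ?_
        fun_prop
      · rw [ae_restrict_iff' measurableSet_Ioc]
        refine ae_of_all _ fun w hw => ?_
        rw [Complex.norm_exp]
        refine Real.exp_le_one_iff.mpr ?_
        simp [cl]
        exact hw.1.le
    · refine Continuous.intervalIntegrable ?_ _ _
      have := ZS_cont S
      fun_prop
  obtain ⟨p1, p2⟩ := hp (indicator (Ioc 0 L) k) ((integrable_indicator_iff measurableSet_Ioc).mpr hki).integrableOn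
    (by rw [e1]; exact ((integrable_indicator_iff measurableSet_Ioc).mpr hki2).integrableOn)
  simp only [et] at p1 p2
  refine ⟨p1, ?_⟩
  rw [← p2, e1, setIntegral_indicator measurableSet_Ioc, hs, intervalIntegral.integral_of_le hL.le]
  refine setIntegral_congr_fun measurableSet_Ioc fun w _ => ?_
  show _ = ‖((ph w : ℂ) + ZS S w) * eh w‖ ^ 2
  rw [sq_eh]

/-- the estimate for one finite set of zeros -/
lemma oneW (h : S_FFB) (hg : S_PLG) (hp : S_PL) (a b : ℝ) {L : ℝ} (hL : 0 < L) (θ : ℝ →₀ ℝ)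
    (ha : ∀ x ∈ θ.support, 0 < x ∧ x ≤ 1) (S : Finset ℝ) {α β : ℝ} (hab : α < β) :
    |√(L * (1 / (2 * Real.pi) * ∫ t in α..β, ‖(a : ℂ) * (TT θ t / cl t) - b * PT L t / L‖ ^ 2)) -
      √(L * (1 / (2 * Real.pi) * ∫ t in α..β, ‖Mw S a b L t‖ ^ 2))| ≤
    √(2 * a ^ 2 * (L * ∫ w : ℝ, ‖(De θ w : ℂ) - Mo S L w‖ ^ 2 * Real.exp (-w)) +
      2 * b ^ 2 * (1 / L * ∫ w in (0 : ℝ)..L, ‖(ph w : ℂ) + ZS S w‖ ^ 2 * Real.exp (-w))) := by
  obtain ⟨p1, p2⟩ := hp S L θ hL ha
  obtain ⟨q1, q2⟩ := plg3 hg S hL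
  set c : ℝ := L * (1 / (2 * Real.pi)) with hc
  have hcp : 0 ≤ c := by positivity
  have hc2 : √c ^ 2 = c := Real.sq_sqrt hcp
  set F : ℝ → ℂ := fun t => (√c : ℂ) * ((a : ℂ) * (TT θ t / cl t) - b * PT L t / L) with hF
  set A : ℝ → ℂ := fun t => (√c : ℂ) * Mw S a b L t with hA
  have cT : Continuous (fun t => (a : ℂ) * (TT θ t / cl t) - b * PT L t / L) := by
    refine (continuous_const.mul ((TT_cont θ).div cl_cont cl_ne)).sub ?_
    exact (continuous_const.mul (PT_cont hL.le)).div_const _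
  have mF : MemLp F 2 (volume.restrict (Ioc α β)) := (mlp_c cT _ _).const_mul _
  have mA : MemLp A 2 (volume.restrict (Ioc α β)) := (mlp_c (Mw_cont h hg S a b L) _ _).const_mul _
  have h1 := tri mF mA
  have sqc : ∀ z : ℂ, ‖(√c : ℂ) * z‖ ^ 2 = c * ‖z‖ ^ 2 := by
    intro z
    rw [norm_mul, mul_pow, Complex.norm_real, Real.norm_eq_abs, sq_abs, hc2]
  have eF : ∫ t in Ioc α β, ‖F t‖ ^ 2 =
      L * (1 / (2 * Real.pi) * ∫ t in α..β, ‖(a : ℂ) * (TT θ t / cl t) - b * PT L t / L‖ ^ 2) := by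
    rw [intervalIntegral.integral_of_le hab.le, ← mul_assoc, ← integral_const_mul]
    refine setIntegral_congr_fun measurableSet_Ioc fun t _ => ?_
    exact sqc _
  have eA : ∫ t in Ioc α β, ‖A t‖ ^ 2 = L * (1 / (2 * Real.pi) * ∫ t in α..β, ‖Mw S a b L t‖ ^ 2) := by
    rw [intervalIntegral.integral_of_le hab.le, ← mul_assoc, ← integral_const_mul]
    refine setIntegral_congr_fun measurableSet_Ioc fun t _ => ?_
    exact sqc _
  rw [eF, eA] at h1
  refine h1.trans (Real.sqrt_le_sqrt ?_)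
  set E1 : ℝ → ℂ := fun t => TT θ t / cl t - ∑ g ∈ S, FF (mz (cl g)) ((t - g) * L) / cl g with hE1
  have hL' : (L : ℂ) ≠ 0 := by exact_mod_cast hL.ne'
  have e4 : ∀ t, ‖F t - A t‖ ^ 2 ≤ 2 * a ^ 2 * c * ‖E1 t‖ ^ 2 + 2 * b ^ 2 * c / L ^ 2 * ‖E3 S L t‖ ^ 2 := by
    intro t
    have e5 : F t - A t = (√c : ℂ) * ((a : ℂ) * E1 t - (b : ℂ) / L * E3 S L t) := by
      rw [hF, hA, hE1]
      show (√c : ℂ) * ((a : ℂ) * (TT θ t / cl t) - b * PT L t / L) - (√c : ℂ) * Mw S a b L t =
        (√c : ℂ) * ((a : ℂ) * (TT θ t / cl t - ∑ g ∈ S, FF (mz (cl g)) ((t - g) * L) / cl g) - (b : ℂ) / L * E3 S L t)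
      rw [← mul_sub]
      congr 1
      unfold Mw bg HH E3
      have e6 : ∑ g ∈ S, ((a : ℂ) * FF (mz (cl g)) ((t - g) * L) + (b : ℂ) * (mz (cl g)) * FF 1 ((t - g) * L)) / cl g =
          (a : ℂ) * ∑ g ∈ S, FF (mz (cl g)) ((t - g) * L) / cl g + (b : ℂ) * ∑ g ∈ S, (mz (cl g) : ℂ) * FF 1 ((t - g) * L) / cl g := by
        rw [Finset.mul_sum, Finset.mul_sum, ← Finset.sum_add_distrib]
        refine Finset.sum_congr rfl fun g _ => ?_
        ring
      rw [e6]
      generalize ∑ g ∈ S, FF (mz (cl g)) ((t - g) * L) / cl g = X1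
      generalize ∑ g ∈ S, (mz (cl g) : ℂ) * FF 1 ((t - g) * L) / cl g = X2
      generalize TT θ t / cl t = X3
      field_simp
      ring
    rw [e5, sqc]
    have n1 : ‖(a : ℂ) * E1 t‖ ^ 2 = a ^ 2 * ‖E1 t‖ ^ 2 := by
      rw [norm_mul, mul_pow, Complex.norm_real, Real.norm_eq_abs, sq_abs]
    have n2 : ‖(b : ℂ) / L * E3 S L t‖ ^ 2 = b ^ 2 / L ^ 2 * ‖E3 S L t‖ ^ 2 := by
      rw [norm_mul, norm_div, mul_pow, div_pow, Complex.norm_real, Complex.norm_real, Real.norm_eq_abs, Real.norm_eq_abs,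
        sq_abs, sq_abs]
    have t0 := norm_sub_le ((a : ℂ) * E1 t) ((b : ℂ) / L * E3 S L t)
    have t1 := norm_nonneg ((a : ℂ) * E1 t - (b : ℂ) / L * E3 S L t)
    have t2 : ‖(a : ℂ) * E1 t - (b : ℂ) / L * E3 S L t‖ ^ 2 ≤ 2 * (a ^ 2 * ‖E1 t‖ ^ 2) + 2 * (b ^ 2 / L ^ 2 * ‖E3 S L t‖ ^ 2) := by
      rw [← n1, ← n2]
      nlinarith [sq_nonneg (‖(a : ℂ) * E1 t‖ - ‖(b : ℂ) / L * E3 S L t‖)]
    calc _ ≤ c * (2 * (a ^ 2 * ‖E1 t‖ ^ 2) + 2 * (b ^ 2 / L ^ 2 * ‖E3 S L t‖ ^ 2)) := mul_le_mul_of_nonneg_left t2 hcp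
      _ = _ := by ring
  have i1 : IntegrableOn (fun t => 2 * a ^ 2 * c * ‖E1 t‖ ^ 2) (Ioc α β) := (p1.const_mul _).integrableOn
  have i2 : IntegrableOn (fun t => 2 * b ^ 2 * c / L ^ 2 * ‖E3 S L t‖ ^ 2) (Ioc α β) := (q1.const_mul _).integrableOn
  have hmono := setIntegral_mono_on (isq (mF.sub mA)) (i1.add i2) measurableSet_Ioc fun t _ => e4 t
  refine hmono.trans ?_
  simp only [Pi.add_apply]
  rw [integral_add i1 i2, integral_const_mul, integral_const_mul]
  have k1 : ∫ t in Ioc α β, ‖E1 t‖ ^ 2 ≤ ∫ t : ℝ, ‖E1 t‖ ^ 2 :=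
    setIntegral_le_integral p1 (ae_of_all _ fun t => by positivity)
  have k2 : ∫ t in Ioc α β, ‖E3 S L t‖ ^ 2 ≤ ∫ t : ℝ, ‖E3 S L t‖ ^ 2 :=
    setIntegral_le_integral q1 (ae_of_all _ fun t => by positivity)
  have k3 := mul_le_mul_of_nonneg_left k1 (show 0 ≤ 2 * a ^ 2 * c by positivity)
  have k4 := mul_le_mul_of_nonneg_left k2 (show 0 ≤ 2 * b ^ 2 * c / L ^ 2 by positivity)
  have k5 : 2 * a ^ 2 * c * ∫ t : ℝ, ‖E1 t‖ ^ 2 =
      2 * a ^ 2 * (L * ∫ w : ℝ, ‖(De θ w : ℂ) - Mo S L w‖ ^ 2 * Real.exp (-w)) := by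
    rw [p2, hc]; ring
  have k6 : 2 * b ^ 2 * c / L ^ 2 * ∫ t : ℝ, ‖E3 S L t‖ ^ 2 =
      2 * b ^ 2 * (1 / L * ∫ w in (0 : ℝ)..L, ‖(ph w : ℂ) + ZS S w‖ ^ 2 * Real.exp (-w)) := by
    rw [q2, hc]
    field_simp
  linarith

/-- **JOB FRW** -/
theorem t_FRW (h1 : S_STR) (h3 : S_CR4) (h2 : S_PL) (hf : S_FFB) (hg : S_PLG) (h5 : S_LEG)
    (hs : Pool.Agent.Q286.BD.S_sum2) : S_FRW := by
  intro hRH Lf af hF a b α β hab hα hβ
  have hB : Summable (fun g : Go => (mz (cl g) : ℝ) ^ 2 / (1 / 4 + (g : ℝ) ^ 2)) :=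
    Pool.Agent.Q286.BD.summ_line hRH hs
  have hX : Summable (fun g : Go => zg a b α β g) :=
    Summable.of_nonneg_of_le (fun g => zg_nonneg a b α β g)
      (fun g => (zg_le a b α β g).trans (xg_le h5 a b le_rfl zero_le_one le_rfl g)) (hB.mul_left _)
  show Tendsto _ _ (𝓝 (∑' g : Go, zg a b α β g))
  refine lim_of ?_ (tsum_nonneg fun g => zg_nonneg a b α β g) ?_
  · filter_upwards [hF.tend.eventually_ge_atTop 0] with j hj
    have : 0 ≤ ∫ t in α..β, ‖(a : ℂ) * (TT (af j) t / cl t) - b * PT (Lf j) t / Lf j‖ ^ 2 :=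
      intervalIntegral.integral_nonneg hab.le fun w _ => by positivity
    positivity
  intro ε hε
  set ε1 : ℝ := ε / (2 * a ^ 2 + 2 * b ^ 2 + 1) with hε1
  have hε1p : 0 < ε1 := by positivity
  have hεe : 2 * a ^ 2 * ε1 + 2 * b ^ 2 * ε1 ≤ ε := by
    have : (2 * a ^ 2 + 2 * b ^ 2 + 1) * ε1 = ε := by rw [hε1]; field_simp
    nlinarith
  obtain ⟨S0, hS0, hCR⟩ := h3 hRH ε1 hε1p
  have t1 : ∀ᶠ T : Finset Go in atTop, |∑ g ∈ T, zg a b α β g - ∑' g : Go, zg a b α β g| ≤ ε := by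
    have := Metric.tendsto_nhds.mp hX.hasSum ε hε
    filter_upwards [this] with T hT
    rw [Real.dist_eq] at hT
    exact hT.le
  have t2 : ∀ᶠ T : Finset Go in atTop, BB - ε1 < ∑ g ∈ T, (mz (cl g) : ℝ) ^ 2 / (1 / 4 + (g : ℝ) ^ 2) :=
    hB.hasSum.eventually_const_lt (by unfold BB; linarith)
  have t3 : ∀ᶠ T : Finset Go in atTop, S0.subtype (· ∈ Go) ≤ T := eventually_ge_atTop _
  obtain ⟨T, ⟨hT1, hT2⟩, hT3⟩ := ((t1.and t2).and t3).exists
  set S : Finset ℝ := T.map (Function.Embedding.subtype _) with hSd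
  have hSz : ∀ g ∈ S, riemannZeta (cl g) = 0 := by
    intro g hg
    rw [hSd, Finset.mem_map] at hg
    obtain ⟨g', -, rfl⟩ := hg
    exact g'.2
  have hSS : S0 ⊆ S := by
    intro g hg
    rw [hSd, Finset.mem_map]
    exact ⟨⟨g, hS0 g hg⟩, hT3 (by rw [Finset.mem_subtype]; exact hg), rfl⟩
  have hBS : BS S = ∑ g ∈ T, (mz (cl g) : ℝ) ^ 2 / (1 / 4 + (g : ℝ) ^ 2) := by
    unfold BS
    rw [hSd, Finset.sum_map]
    rfl
  have hXS : ∑ g ∈ S, zg a b α β g = ∑ g ∈ T, zg a b α β g := by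
    rw [hSd, Finset.sum_map]
    rfl
  refine ⟨fun j => Lf j * (1 / (2 * Real.pi) * ∫ t in α..β, ‖Mw S a b (Lf j) t‖ ^ 2),
    ∑ g ∈ S, zg a b α β g, Finset.sum_nonneg fun g _ => zg_nonneg a b α β g, ?_, ?_, ?_⟩
  · exact (modelW hf hg a b hab S (fun h => hα (hSz _ h)) (fun h => hβ (hSz _ h))).comp hF.tend
  · rw [hXS]; exact hT1
  · have r1 := rem h1 S hSz hF (η := ε1) (by rw [hBS]; linarith)
    have r2 := hF.tend.eventually (hCR S hSS hSz)
    filter_upwards [r1, r2] with j j1 j2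
    obtain ⟨j1, j3, j4⟩ := j1
    refine (oneW hf hg h2 a b (by linarith) (af j) (fun θ hθ => ?_) S hab).trans (Real.sqrt_le_sqrt ?_)
    · have := hF.supp j θ hθ
      exact ⟨lt_of_lt_of_le (Real.exp_pos _) this.1, this.2⟩
    · have k1 := mul_le_mul_of_nonneg_left j4 (show (0 : ℝ) ≤ 2 * a ^ 2 by positivity)
      have k2 := mul_le_mul_of_nonneg_left j2 (show (0 : ℝ) ≤ 2 * b ^ 2 by positivity)
      linarith

end Pool.Agent.Q96.OE
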